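import Pool.Agent.H82.G4.Targets

/-! Board `g4_modules`, row SXI: integrals are bounded by sums over separated sets. -/

set_option autoImplicit false

namespace Pool.Agent.H1.G4.SXI

open Pool.Agent.H82.G4 Pool.Agent.H83.G MeasureTheory Set
open scoped ENNReal NNReal

theorem pf_SXI (hSXB : T_SXB) (hWT3 : T_WT3) : T_SXI := by
  intro m P hP
  obtain ⟨C, hC⟩ := hSXB m P hP
  have hcov : ∀ z : Z m, ∃ l : Zi m, ‖z - zc l‖ ≤ (m : ℝ) + 1 := by
    obtain ⟨_, h⟩ := hWT3 m (m + 3) le_rfl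
    exact h.2.2.2.2
  set V : ℝ≥0∞ := volume (Metric.closedBall (0 : Z m) ((m : ℝ) + 1)) with hV
  have hVtop : V ≠ ⊤ := (Metric.isBounded_closedBall.measure_lt_top).ne
  refine ⟨V.toNNReal * C, fun f => ?_⟩
  have hball : ∀ l : Zi m, volume (Metric.closedBall (zc l) ((m : ℝ) + 1)) = V := by
    intro l
    rw [hV]
    have h0 : (volume : Measure (E m × ℝ)).IsAddHaarMeasure :=
      Measure.prod.instIsAddHaarMeasure (volume : Measure (E m)) (volume : Measure ℝ)
    have h1 : (volume : Measure (Z m)).IsAddHaarMeasure :=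
      Measure.prod.instIsAddHaarMeasure (volume : Measure ℝ) (volume : Measure (E m × ℝ))
    exact (Measure.addHaar_closedBall_center volume (zc l) _)
  have hU : (⋃ l : Zi m, Metric.closedBall (zc l) ((m : ℝ) + 1)) = univ := by
    apply eq_univ_of_forall
    intro z
    obtain ⟨l, hl⟩ := hcov z
    exact mem_iUnion.2 ⟨l, by rw [Metric.mem_closedBall, dist_eq_norm]; exact hl⟩
  have h1 : ∫⁻ z, ‖f z‖ₑ ^ P ≤
      ∑' l : Zi m, ∫⁻ z in Metric.closedBall (zc l) ((m : ℝ) + 1), ‖f z‖ₑ ^ P := by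
    calc ∫⁻ z, ‖f z‖ₑ ^ P = ∫⁻ z in (⋃ l : Zi m, Metric.closedBall (zc l) ((m : ℝ) + 1)),
          ‖f z‖ₑ ^ P := by rw [hU, Measure.restrict_univ]
      _ ≤ _ := lintegral_iUnion_le _ _
  have h2 : ∀ l : Zi m, ∫⁻ z in Metric.closedBall (zc l) ((m : ℝ) + 1), ‖f z‖ₑ ^ P ≤
      V * Mj 1 f l ^ P := by
    intro l
    calc ∫⁻ z in Metric.closedBall (zc l) ((m : ℝ) + 1), ‖f z‖ₑ ^ P
        ≤ ∫⁻ _z in Metric.closedBall (zc l) ((m : ℝ) + 1), Mj 1 f l ^ P := by
          apply setLIntegral_mono' Metric.isClosed_closedBall.measurableSet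
          intro z hz
          apply ENNReal.rpow_le_rpow _ hP.le
          unfold Mj
          refine le_iSup₂_of_le z ?_ le_rfl
          rw [Metric.mem_closedBall, dist_eq_norm] at hz
          simpa using hz
      _ = V * Mj 1 f l ^ P := by
          rw [setLIntegral_const, hball l, mul_comm]
  calc ∫⁻ z, ‖f z‖ₑ ^ P ≤ _ := h1
    _ ≤ ∑' l : Zi m, V * Mj 1 f l ^ P := ENNReal.tsum_le_tsum h2
    _ = V * ∑' l : Zi m, Mj 1 f l ^ P := ENNReal.tsum_mul_left
    _ ≤ V * (C * SX P f) := mul_le_mul_right (hC 1 f le_rfl) _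
    _ = ((V.toNNReal * C : ℝ≥0) : ℝ≥0∞) * SX P f := by
        rw [ENNReal.coe_mul, ENNReal.coe_toNNReal hVtop, mul_assoc]

end Pool.Agent.H1.G4.SXI
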